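import Pool.Agent.TH729.BQ.R6

/-!
# Mazur's conjecture on the components of the closure of the rational points for the
hypersurfaces of bidegree (2,2)

* Let `K` be a field algebraic over `ℚ` with an embedding `K → ℝ` (for example a number field),
  and let `X` be the hypersurface

    `a(x₁, …, xₙ) t² + b(x₁, …, xₙ) t + c(x₁, …, xₙ) = 0`

  in affine `(n + 1)`-space over `K`, `n ≥ 2`, with linearly independent polynomials `a`, `b`, `c`
  of degree at most two, such that the quadratic form in `n + 1` variables obtained from the
  left-hand side by homogenizing with respect to `x₁, …, xₙ` is nondegenerate for some value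
  `t ∈ K`.  (`X` may be singular, and some of its fibres over the `t`-line may be cones over
  quadrics without points, or reducible.)  The closure of `X(K)` in `ℝⁿ⁺¹` has only finitely many
  connected components.
* For `K = ℚ` the same holds for the closure of the set of the values of rational functions
  `p₁/q, …, p_m/q` at the rational points of a finite product of such hypersurfaces (possibly in
  different numbers of variables) and of affine spaces, with `q ≠ 0`.  With `p_i = q x_i` and
  `p_m = 1` this contains the open subvarieties `q ≠ 0` of such products, as closed subvarieties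
  of affine space.

Idea of the proof.  A rational point `P` on a smooth fibre of `X → 𝔸¹` moves in its fibre, which
satisfies weak approximation, and then to the second point of `X` over the same `x`.  A
transversality argument shows that the limits of the points obtained from `P` in two steps of this
kind fill a neighbourhood of `P` in `X(ℝ)`.  So the closure of the rational points is open in the
set of the real points of the smooth fibres (library `TH729/BQ`), and therefore it is a union of
connected components of this semialgebraic set.  The singular fibres are finitely many quadrics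
(library `TH729/CC`).
-/

set_option autoImplicit false

namespace Pool.Agent.Results.MP_4d3b00_ag.BidegreeTwoTwo

open MvPolynomial Matrix

/-- The set of the zeros `y = (t, x₁, …, xₙ)` of a polynomial `a(x) t² + b(x) t + c(x)`, where `a`,
`b`, `c` are given by the symmetric matrices `A`, `B`, `C`, evaluated at the vector
`(1, x₁, …, xₙ)`, which is `Function.update y 0 1`.  We require that `n ≥ 2`, that the matrices are
linearly independent and that `t² A + t B + C` is invertible for some `t`. -/
def TwoTwo {K : Type} [Field K] {n : ℕ} (S : Set (Fin (n + 1) → K)) : Prop :=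
  2 ≤ n ∧ ∃ A B C : Matrix (Fin (n + 1)) (Fin (n + 1)) K, A.IsSymm ∧ B.IsSymm ∧ C.IsSymm ∧
    LinearIndependent K ![A, B, C] ∧ (∃ t : K, (t ^ 2 • A + t • B + C).det ≠ 0) ∧
    S = {y | Function.update y 0 1 ⬝ᵥ (y 0 ^ 2 • A + y 0 • B + C) *ᵥ Function.update y 0 1 = 0}

/-- The set of the zeros of a polynomial as in `TwoTwo` in some of `N` variables. -/
def Cylinder {K : Type} [Field K] {N : ℕ} (S : Set (Fin N → K)) : Prop :=
  ∃ (n : ℕ) (e : Fin (n + 1) → Fin N) (S₀ : Set (Fin (n + 1) → K)), Function.Injective e ∧
    TwoTwo S₀ ∧ S = {y | (fun i => y (e i)) ∈ S₀}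

theorem result :
    -- the closure of the rational points of a hypersurface
    (∀ (K : Type) [Field K] [CharZero K] [Algebra.IsAlgebraic ℚ K] (σ : K →+* ℝ) (n : ℕ)
      (S : Set (Fin (n + 1) → K)), TwoTwo S →
      Finite (ConnectedComponents ↥(closure
        {x : Fin (n + 1) → ℝ | ∃ r ∈ S, x = fun i => σ (r i)}))) ∧
    -- the closure of the values of rational functions at the rational points of products
    (∀ (ι κ : Type) [Finite ι] [Finite κ] (N : ℕ) (S : ι → Set (Fin N → ℚ)),
      (∀ j, Cylinder (S j)) →
      ∀ (m : ℕ) (p : Fin m → MvPolynomial ((ι × Fin N) ⊕ κ) ℚ)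
        (q : MvPolynomial ((ι × Fin N) ⊕ κ) ℚ),
        Finite (ConnectedComponents ↥(closure
          {y : Fin m → ℝ | ∃ (x : ι → Fin N → ℚ) (u : κ → ℚ), (∀ j, x j ∈ S j) ∧
            eval (Sum.elim (fun r => x r.1 r.2) u) q ≠ 0 ∧
            ∀ k, y k = ((eval (Sum.elim (fun r => x r.1 r.2) u) (p k) /
              eval (Sum.elim (fun r => x r.1 r.2) u) q : ℚ) : ℝ)}))) := by
  have h1 : ∀ (K : Type) [Field K] [CharZero K] [Algebra.IsAlgebraic ℚ K] (σ : K →+* ℝ) (n : ℕ)
      (S : Set (Fin (n + 1) → K)), TwoTwo S →
      Pool.Agent.H581R2.SA (closure ((fun (r : Fin (n + 1) → K) i => σ (r i)) '' S)) := by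
    rintro K _ _ _ σ n S ⟨hn, A, B, C, hA, hB, hC, hind, hdet, hS⟩
    exact Pool.Agent.TH729.BQ.twoTwo_SA σ hn hA hB hC hind hdet hS
  refine ⟨fun K _ _ _ σ n S hS => ?_, fun ι κ _ _ N S hS m p q => ?_⟩
  · have h2 : {x : Fin (n + 1) → ℝ | ∃ r ∈ S, x = fun i => σ (r i)} =
        (fun (r : Fin (n + 1) → K) i => σ (r i)) '' S := by
      ext x
      constructor
      · rintro ⟨r, hr, rfl⟩
        exact ⟨r, hr, rfl⟩
      · rintro ⟨r, hr, rfl⟩
        exact ⟨r, hr, rfl⟩
    rw [h2]
    exact Pool.Agent.TH729.SQ.sa_comp (h1 K σ n S hS)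
  · refine Pool.Agent.TH729.SQ.sa_comp (Pool.Agent.TH729.BQ.vals_SA (fun j => ?_) p q)
    obtain ⟨n, e, S₀, he, hS₀, hSj⟩ := hS j
    rw [hSj]
    exact Pool.Agent.TH729.BQ.cyl_SA (Rat.castHom ℝ) (h1 ℚ (Rat.castHom ℝ) n S₀ hS₀) he

end Pool.Agent.Results.MP_4d3b00_ag.BidegreeTwoTwo
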