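import Pool.Agent.TH729.CC.Dio

/-!
# Mazur's conjecture on the components of the closure of the rational points: cubic hypersurfaces,
intersections of two quadrics, and the images of their products

* `X` is defined over a field `K` algebraic over `ℚ` with an embedding `K → ℝ` (for example a
  number field) by one equation of degree at most three, or by two equations of degree at most two,
  in affine space of any dimension.  It may be singular, reducible, a cone, and of any dimension.
  The closure of `X(K)` in `ℝⁿ` has only finitely many connected components.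
* For `K = ℚ` the same holds for the closure of the set of the values of rational functions
  `p₁/q, …, p_m/q` at the rational points of a finite product of such varieties (and of affine
  spaces) with `q ≠ 0`.  With `p_i = q x_i` and `p_m = 1` this contains the open subvarieties
  `q ≠ 0` of such products, as closed subvarieties of affine space.
* In particular, it holds for the sets `{t ∈ ℚᵐ : ∃ y, f(t, y) = g(t, y) = 0}`, with `f`, `g` of
  degree at most two, or `f` of degree at most three and `g = 0`.

These closures are semialgebraic over `ℚ` (library `TH729/CC`), and semialgebraic sets over `ℚ`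
have only finitely many connected components (`TH729/SQ/Comp`).
-/

set_option autoImplicit false

namespace Pool.Agent.Results.MP_4d3b00_ag.CubicsAndPairsOfQuadrics

open MvPolynomial

/-- Two polynomials of degree at most two, or one polynomial of degree at most three. -/
def Block {K : Type} [Field K] {σ : Type} (f g : MvPolynomial σ K) : Prop :=
  (f.totalDegree ≤ 2 ∧ g.totalDegree ≤ 2) ∨ (f.totalDegree ≤ 3 ∧ g = 0)

theorem result :
    -- the closure of the rational points
    (∀ (K : Type) [Field K] [CharZero K] [Algebra.IsAlgebraic ℚ K] (σ : K →+* ℝ) (n : ℕ)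
      (f g : MvPolynomial (Fin n) K), Block f g →
      Finite (ConnectedComponents ↥(closure
        {x : Fin n → ℝ | ∃ r : Fin n → K, (eval r f = 0 ∧ eval r g = 0) ∧
          x = fun i => σ (r i)}))) ∧
    -- the closure of the values of rational functions at the rational points of products
    (∀ (ι κ : Type) [Finite ι] [Finite κ] (n : ℕ) (f g : ι → MvPolynomial (Fin n) ℚ),
      (∀ j, Block (f j) (g j)) →
      ∀ (m : ℕ) (p : Fin m → MvPolynomial ((ι × Fin n) ⊕ κ) ℚ)
        (q : MvPolynomial ((ι × Fin n) ⊕ κ) ℚ),
        Finite (ConnectedComponents ↥(closure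
          {y : Fin m → ℝ | ∃ (x : ι → Fin n → ℚ) (u : κ → ℚ),
            (∀ j, eval (x j) (f j) = 0 ∧ eval (x j) (g j) = 0) ∧
            eval (Sum.elim (fun r => x r.1 r.2) u) q ≠ 0 ∧
            ∀ k, y k = ((eval (Sum.elim (fun r => x r.1 r.2) u) (p k) /
              eval (Sum.elim (fun r => x r.1 r.2) u) q : ℚ) : ℝ)}))) ∧
    -- Diophantine sets given by one cubic or two quadratic equations
    (∀ (m n : ℕ) (f g : MvPolynomial (Fin m ⊕ Fin n) ℚ), Block f g →
      Finite (ConnectedComponents ↥(closure
        {x : Fin m → ℝ | ∃ t : Fin m → ℚ, (∃ y : Fin n → ℚ, eval (Sum.elim t y) f = 0 ∧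
          eval (Sum.elim t y) g = 0) ∧ x = fun i => ((t i : ℚ) : ℝ)}))) := by
  refine ⟨fun K _ _ _ σ n f g hfg => ?_, fun ι κ _ _ n f g hfg m p q => ?_,
    fun m n f g hfg => ?_⟩
  · have h1 := Pool.Agent.TH729.CC.block_SA K σ n f g hfg
    have h2 : {x : Fin n → ℝ | ∃ r : Fin n → K, (eval r f = 0 ∧ eval r g = 0) ∧
        x = fun i => σ (r i)} =
        (fun (r : Fin n → K) i => σ (r i)) '' {r | eval r f = 0 ∧ eval r g = 0} := by
      ext x
      constructor
      · rintro ⟨r, hr, rfl⟩
        exact ⟨r, hr, rfl⟩
      · rintro ⟨r, hr, rfl⟩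
        exact ⟨r, hr, rfl⟩
    rw [h2]
    exact Pool.Agent.TH729.SQ.sa_comp h1
  · exact Pool.Agent.TH729.SQ.sa_comp (Pool.Agent.TH729.CC.dio_SA f g hfg p q)
  · -- the last part is a special case
    let e : Fin m ⊕ Fin n ≃ Fin (m + n) := finSumFinEquiv
    have hfg' : Block (rename e f) (rename e g) := by
      rcases hfg with ⟨hf, hg⟩ | ⟨hf, rfl⟩
      · exact Or.inl ⟨(totalDegree_rename_le e f).trans hf, (totalDegree_rename_le e g).trans hg⟩
      · exact Or.inr ⟨(totalDegree_rename_le e f).trans hf, map_zero _⟩
    have h3 := Pool.Agent.TH729.CC.dio_SA (ι := Unit) (κ := Empty) (n := m + n)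
      (fun _ => rename e f) (fun _ => rename e g) (fun _ => hfg')
      (fun k : Fin m => X (Sum.inl ((), e (Sum.inl k)))) 1
    have h4 : {y : Fin m → ℝ | ∃ (x : Unit → Fin (m + n) → ℚ) (u : Empty → ℚ),
        (∀ j, eval (x j) ((fun _ => rename e f) j) = 0 ∧
          eval (x j) ((fun _ => rename e g) j) = 0) ∧
        eval (Sum.elim (fun r : Unit × Fin (m + n) => x r.1 r.2) u) 1 ≠ 0 ∧
        ∀ k, y k = ((eval (Sum.elim (fun r : Unit × Fin (m + n) => x r.1 r.2) u)
          ((fun k => X (Sum.inl ((), e (Sum.inl k)))) k) /
          eval (Sum.elim (fun r : Unit × Fin (m + n) => x r.1 r.2) u) 1 : ℚ) : ℝ)} =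
        {x : Fin m → ℝ | ∃ t : Fin m → ℚ, (∃ y : Fin n → ℚ, eval (Sum.elim t y) f = 0 ∧
          eval (Sum.elim t y) g = 0) ∧ x = fun i => ((t i : ℚ) : ℝ)} := by
      ext y
      constructor
      · rintro ⟨x, u, hx, -, hy⟩
        have hs : (x () ∘ e) = Sum.elim (fun k => x () (e (Sum.inl k)))
            (fun k => x () (e (Sum.inr k))) := by
          funext s
          rcases s with s | s <;> rfl
        refine ⟨fun k => x () (e (Sum.inl k)), ⟨fun k => x () (e (Sum.inr k)), ?_, ?_⟩, ?_⟩
        · have h5 := (hx ()).1
          simp only [eval_rename, hs] at h5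
          exact h5
        · have h5 := (hx ()).2
          simp only [eval_rename, hs] at h5
          exact h5
        · funext k
          rw [hy k]
          simp
      · rintro ⟨t, ⟨z, hz, hz'⟩, rfl⟩
        have hs : ((fun s => Sum.elim t z (e.symm s)) ∘ e) = Sum.elim t z := by
          funext s
          simp
        refine ⟨fun _ s => Sum.elim t z (e.symm s), fun s => s.elim, fun _ => ⟨?_, ?_⟩, by simp,
          fun k => ?_⟩
        · simp only [eval_rename, hs]
          exact hz
        · simp only [eval_rename, hs]
          exact hz'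
        · simp
    rw [h4] at h3
    exact Pool.Agent.TH729.SQ.sa_comp h3

end Pool.Agent.Results.MP_4d3b00_ag.CubicsAndPairsOfQuadrics
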