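import Pool.Agent.TH729.SQ.Tri
import Pool.Agent.TH729.BQ.R6

/-!
# Mazur's conjecture on the components of the closure of the rational points for the triquadratic
surfaces

`F` is a form of tridegree `(2,2,2)` over a number field `K`, in the variables
`X (0,0), X (0,1); X (1,0), X (1,1); X (2,0), X (2,1)`, such that the surface `F = 0` in
`P¹ × P¹ × P¹` has only finitely many singular points and contains no fibre of the three
projections to `P¹ × P¹` (smooth surfaces of this kind are K3 surfaces).

* For every embedding `K → ℝ`, the closure of the `K`-rational points of the affine surface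
  `F(x₀,1,x₁,1,x₂,1) = 0` in `ℝ³` has only finitely many connected components.
* For `K = ℚ` the same holds for the closure of the set of the values of rational functions
  `p₁/q, …, p_m/q` at the rational points of a finite product of such surfaces and of an affine
  space, with `q ≠ 0`.

Ingredients: the closure is semialgebraic over `ℚ`, by the local analysis of `W279/TriR` (every
rational point outside a finite set is an interior point of the closure, and limits of interior
points at smooth points are interior points) and the theorem on relatively clopen subsets of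
semialgebraic sets (`TH729/SQ`), and a semialgebraic set has only finitely many components
(`TH729/SQ/Comp`).
-/

set_option autoImplicit false

namespace Pool.Agent.Results.MP_4d3b00_ag.TriquadraticSurfaces

open MvPolynomial Pool.Agent.W279.Tri Pool.Agent.W279.TriR Pool.Agent.TH729.SQ

/-- The hypotheses on the form `F`. -/
structure Admissible {K : Type} [Field K] (F : MvPolynomial (Fin 3 × Fin 2) K) : Prop where
  /-- `F` has the tridegree `(2,2,2)` -/
  tridegree : ∀ m ∈ F.support, ∀ i : Fin 3, m (i, 0) + m (i, 1) = 2
  /-- no fibre of the projections to two of the factors lies on the surface -/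
  noFibre : ∀ (i : Fin 3) (p : Fin 3 → Fin 2 → AlgebraicClosure K), (∀ j, p j ≠ 0) →
    ∃ w : Fin 2 → AlgebraicClosure K,
      aeval (fun q : Fin 3 × Fin 2 => Function.update p i w q.1 q.2) F ≠ 0
  /-- the surface has only finitely many singular points -/
  isolated : ∃ S : Set (Fin 3 → Fin 2 → AlgebraicClosure K), S.Finite ∧
    ∀ p : Fin 3 → Fin 2 → AlgebraicClosure K, (∀ i, p i ≠ 0) →
      (∀ q : Fin 3 × Fin 2, aeval (fun r : Fin 3 × Fin 2 => p r.1 r.2) (pderiv q F) = 0) →
      ∃ s ∈ S, ∀ i, ∃ t : AlgebraicClosure K, p i = t • s i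

/-- The rational points of the affine surface `F(x₀,1,x₁,1,x₂,1) = 0`. -/
def points {K : Type} [Field K] (F : MvPolynomial (Fin 3 × Fin 2) K) : Set (Fin 3 → K) :=
  {x | eval (fun q : Fin 3 × Fin 2 => if q.2 = 0 then x q.1 else 1) F = 0}

theorem result :
    -- the closure of the rational points
    (∀ (K : Type) [Field K] [NumberField K] (F : MvPolynomial (Fin 3 × Fin 2) K),
      Admissible F → ∀ σ : K →+* ℝ,
        Finite (ConnectedComponents ↥(closure
          {x : Fin 3 → ℝ | ∃ r ∈ points F, x = fun i => σ (r i)}))) ∧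
    -- the closure of the values of rational functions at the rational points of products of
    -- such surfaces and of affine spaces
    (∀ (ι κ : Type) [Finite ι] [Finite κ] (F : ι → MvPolynomial (Fin 3 × Fin 2) ℚ),
      (∀ j, Admissible (F j)) →
      ∀ (m : ℕ) (p : Fin m → MvPolynomial ((ι × Fin 3) ⊕ κ) ℚ)
        (q : MvPolynomial ((ι × Fin 3) ⊕ κ) ℚ),
        Finite (ConnectedComponents ↥(closure
          {y : Fin m → ℝ | ∃ (x : ι → Fin 3 → ℚ) (u : κ → ℚ),
            (∀ j, x j ∈ points (F j)) ∧ eval (Sum.elim (fun r => x r.1 r.2) u) q ≠ 0 ∧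
            ∀ k, y k = ((eval (Sum.elim (fun r => x r.1 r.2) u) (p k) /
              eval (Sum.elim (fun r => x r.1 r.2) u) q : ℚ) : ℝ)}))) := by
  have haf : ∀ {R : Type} [Field R] (x : Fin 3 → R),
      (fun q : Fin 3 × Fin 2 => if q.2 = 0 then x q.1 else 1) = fun q => af x q.1 q.2 := by
    intro R _ x
    funext ⟨i, a⟩
    fin_cases a <;> simp [af]
  have h1 : ∀ (K : Type) [Field K] [NumberField K] (F : MvPolynomial (Fin 3 × Fin 2) K),
      Admissible F → ∀ σ : K →+* ℝ,
        Pool.Agent.H581R2.SA (closure ((fun (r : Fin 3 → K) i => σ (r i)) '' points F)) := by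
    intro K _ _ F hF σ
    have hF' := hF
    obtain ⟨c, hc⟩ := exists_form hF.tridegree
    subst hc
    obtain ⟨T, hT, hT1, hT2⟩ := tri_main (nice_of hF'.noFibre hF'.isolated)
    have hpt : ∀ r : Fin 3 → K, r ∈ points (form c) ↔ E c (af r 0) (af r 1) (af r 2) = 0 := by
      intro r
      change eval (fun q : Fin 3 × Fin 2 => if q.2 = 0 then r q.1 else 1) (form c) = 0 ↔ _
      rw [haf, eval_form]
    have hreal : (fun (r : Fin 3 → K) i => σ (r i)) '' points (form c) = VK c σ := by
      ext x
      constructor
      · rintro ⟨r, hr, rfl⟩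
        exact ⟨r, (hpt r).1 hr, rfl⟩
      · rintro ⟨r, hr, rfl⟩
        exact ⟨r, (hpt r).2 hr, rfl⟩
    rw [hreal]
    exact (hT2 σ).1
  refine ⟨fun K _ _ F hF σ => ?_, fun ι κ _ _ F hF m p q => ?_⟩
  · have h2 : {x : Fin 3 → ℝ | ∃ r ∈ points F, x = fun i => σ (r i)} =
        (fun (r : Fin 3 → K) i => σ (r i)) '' points F := by
      ext x
      constructor
      · rintro ⟨r, hr, rfl⟩
        exact ⟨r, hr, rfl⟩
      · rintro ⟨r, hr, rfl⟩
        exact ⟨r, hr, rfl⟩
    rw [h2]
    exact sa_comp (h1 K F hF σ)
  · exact sa_comp (Pool.Agent.TH729.BQ.vals_SA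
      (fun j => h1 ℚ (F j) (hF j) (Rat.castHom ℝ)) p q)

end Pool.Agent.Results.MP_4d3b00_ag.TriquadraticSurfaces
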